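import Pool.Agent.WR2.StmtsC

/-!
WR2: row PDC (predecessors)
-/

set_option autoImplicit false

namespace Pool.Agent.WR2.H98

open Pool.Agent.WIR
open scoped BigOperators ENNReal

theorem Mz_strictMono (n : ℕ) : StrictMono (Mz n) := by
  refine strictMono_nat_of_lt_succ fun l => ?_
  unfold Mz
  have h1 : Nat.log 2 (3 ^ l * 2) = Nat.log 2 (3 ^ l) + 1 :=
    Nat.log_mul_base (by norm_num) (by positivity)
  have h2 : Nat.log 2 (3 ^ l * 2) ≤ Nat.log 2 (3 ^ (l + 1)) := by
    apply Nat.log_mono_right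
    rw [pow_succ]
    exact Nat.mul_le_mul_left _ (by norm_num)
  omega

theorem notper {a b M M' : ℕ} (h : ∀ p, 0 < p → T^[p] a ≠ a) (hM : M < M')
    (h1 : T^[M] b = a) (h2 : T^[M'] b = a) : False := by
  refine h (M' - M) (by omega) ?_
  have h3 : T^[M'] b = T^[M' - M] (T^[M] b) := by
    rw [← Function.iterate_add_apply]
    congr 2
    omega
  rw [h1, h2] at h3
  exact h3.symm

open Classical in
/-- **Row PDC** -/
theorem pdc (pre : PreStmt) (flo : FloStmt) : PdcStmt := by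
  intro n L a ha hper
  obtain ⟨p1, p2, p3, p4⟩ := pre
  have h1 : ∑ l ∈ Finset.range L, uT (Mz n l) l a
      = ((Finset.range L).biUnion fun l => Pre (Mz n l) l a).card := by
    rw [Finset.card_biUnion]
    · exact Finset.sum_congr rfl fun l _ => p3 _ _ _
    · intro l _ l' _ hne
      show Disjoint (Pre (Mz n l) l a) (Pre (Mz n l') l' a)
      rw [Finset.disjoint_left]
      intro b hb hb'
      have e1 := ((p1 _ _ _ _).1 hb).2.1
      have e2 := ((p1 _ _ _ _).1 hb').2.1
      rcases lt_or_gt_of_ne hne with h | h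
      · exact notper hper (Mz_strictMono n h) e1 e2
      · exact notper hper (Mz_strictMono n h) e2 e1
  rw [h1]
  apply Finset.card_le_card
  intro b hb
  rw [Finset.mem_biUnion] at hb
  obtain ⟨l, _, hb⟩ := hb
  have e1 := (p1 _ _ _ _).1 hb
  have e2 := p2 _ _ _ _ hb
  have e3 := (flo.2.1 n l).1
  rw [Finset.mem_filter, Finset.mem_Icc]
  refine ⟨⟨e1.1, ?_⟩, Mz n l, e1.2.1⟩
  have e4 : 3 ^ l * b ≤ 3 ^ l * (2 ^ n * a) := by
    calc 3 ^ l * b ≤ 2 ^ Mz n l * a := e2
      _ ≤ (2 ^ n * 3 ^ l) * a := Nat.mul_le_mul_right _ e3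
      _ = 3 ^ l * (2 ^ n * a) := by ring
  exact Nat.le_of_mul_le_mul_left e4 (by positivity)

end Pool.Agent.WR2.H98
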